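import Pool.Agent.H39.EAG.Targets

/-!
# CHC: the chromatic number of Mathlib (MP_a10695_co)
-/

set_option autoImplicit false

open Finset Filter Topology Pool.Agent.H39.EAG

namespace Pool.Agent.H60.EAG

theorem eq_chi {W : Type} (K : SimpleGraph W) (m : ℕ) (hm : K.Colorable m)
    (h : ∀ k, K.Colorable k → m ≤ k) : K.chromaticNumber = (m : ℕ∞) := by
  refine le_antisymm (SimpleGraph.chromaticNumber_le_iff_colorable.2 hm) ?_
  by_cases ht : K.chromaticNumber = ⊤
  · rw [ht]
    exact le_top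
  · obtain ⟨k, hk⟩ := ENat.ne_top_iff_exists.1 ht
    rw [← hk]
    have h1 : K.Colorable k := SimpleGraph.chromaticNumber_le_iff_colorable.1 (le_of_eq hk.symm)
    exact_mod_cast h k h1

theorem pf_CHC (h : T_CHA) : T_CHC := by
  intro V _ _ G
  obtain ⟨hc, -⟩ := h V G
  refine ⟨fun S => ?_, ?_⟩
  · have e : ∀ k, (G.induce (S : Set V)).Colorable k ↔ Col G S k := by
      intro k
      constructor
      · rintro ⟨C⟩
        refine ⟨fun v => if hv : v ∈ S then (C ⟨v, hv⟩ : ℕ) else 0, ?_, ?_⟩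
        · intro v hv
          simp only [dif_pos hv]
          exact (C ⟨v, hv⟩).2
        · intro u hu v hv huv hcc
          simp only [dif_pos hu, dif_pos hv] at hcc
          have h1 : (G.induce (S : Set V)).Adj ⟨u, hu⟩ ⟨v, hv⟩ := huv
          exact C.valid h1 (Fin.ext hcc)
      · rintro ⟨c, h1, h2⟩
        refine ⟨SimpleGraph.Coloring.mk (fun v => ⟨c v, h1 v v.2⟩) ?_⟩
        intro u v huv hcc
        exact h2 u u.2 v v.2 huv (Fin.mk.inj_iff.1 hcc)
    exact eq_chi _ _ ((e _).2 ((hc S _).2 le_rfl)) fun k hk => (hc S k).1 ((e k).1 hk)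
  · have e : ∀ k, G.Colorable k ↔ Col G univ k := by
      intro k
      constructor
      · rintro ⟨C⟩
        refine ⟨fun v => (C v : ℕ), fun v _ => (C v).2, ?_⟩
        intro u _ v _ huv hcc
        exact C.valid huv (Fin.ext hcc)
      · rintro ⟨c, h1, h2⟩
        refine ⟨SimpleGraph.Coloring.mk (fun v => ⟨c v, h1 v (mem_univ v)⟩) ?_⟩
        intro u v huv hcc
        exact h2 u (mem_univ u) v (mem_univ v) huv (Fin.mk.inj_iff.1 hcc)
    exact eq_chi _ _ ((e _).2 ((hc univ _).2 le_rfl)) fun k hk => (hc univ k).1 ((e k).1 hk)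

end Pool.Agent.H60.EAG
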