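import Pool.Agent.H39.EAG.Targets

/-!
# IBL: there is an independent block (MP_a10695_co)
-/

set_option autoImplicit false

open Finset Filter Topology Pool.Agent.H39.EAG

namespace Pool.Agent.H60.EAG

open Classical in
/-- an event which does not depend on the coordinates in `P` -/
theorem split {I : Type} [Fintype I] [DecidableEq I] (P : Finset I) (E : (I → Bool) → Prop)
    (hE : ∀ ω ω' : I → Bool, (∀ i, i ∉ P → ω i = ω' i) → (E ω ↔ E ω')) :
    cnt (fun ω : I → Bool => E ω ∧ ∃ i ∈ P, ω i = true) = (1 - (1 / 2 : ℝ) ^ P.card) * cnt E := by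
  -- the events with all coordinates in `P` false
  have e1 : Fintype.card {ω : I → Bool // E ω} =
      Fintype.card {ω : I → Bool // E ω ∧ ∀ i ∈ P, ω i = false} * 2 ^ P.card := by
    have hc : Fintype.card (P → Bool) = 2 ^ P.card := by
      rw [Fintype.card_fun, Fintype.card_bool, Fintype.card_coe]
    rw [← hc, ← Fintype.card_prod]
    refine Fintype.card_congr
      { toFun := fun ω => (⟨fun i => if i ∈ P then false else ω.1 i, ?_⟩, fun i => ω.1 i)
        invFun := fun q => ⟨fun i => if h : i ∈ P then q.2 ⟨i, h⟩ else q.1.1 i, ?_⟩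
        left_inv := ?_
        right_inv := ?_ }
    · refine ⟨(hE _ _ fun i hi => ?_).1 ω.2, fun i hi => ?_⟩
      · exact (if_neg hi).symm
      · exact if_pos hi
    · refine (hE _ _ fun i hi => ?_).1 q.1.2.1
      simp [hi]
    · intro ω
      ext i
      by_cases hi : i ∈ P
      · simp [hi]
      · simp [hi]
    · rintro ⟨⟨ω, hω1, hω2⟩, g⟩
      refine Prod.ext (Subtype.ext ?_) ?_
      · funext i
        by_cases hi : i ∈ P
        · simp only [if_pos hi]
          exact (hω2 i hi).symm
        · simp only [if_neg hi, dif_neg hi]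
      · funext i
        simp
  have e2 : Fintype.card {ω : I → Bool // E ω} =
      Fintype.card {ω : I → Bool // E ω ∧ ∀ i ∈ P, ω i = false} +
      Fintype.card {ω : I → Bool // E ω ∧ ∃ i ∈ P, ω i = true} := by
    rw [Fintype.card_subtype, Fintype.card_subtype, Fintype.card_subtype,
      ← Finset.card_union_of_disjoint]
    · congr 1
      ext ω
      simp only [Finset.mem_filter, Finset.mem_univ, true_and, Finset.mem_union]
      constructor
      · intro h
        by_cases h1 : ∀ i ∈ P, ω i = false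
        · exact Or.inl ⟨h, h1⟩
        · right
          push Not at h1
          obtain ⟨i, hi, h2⟩ := h1
          exact ⟨h, i, hi, by simpa using h2⟩
      · rintro (h | h)
        · exact h.1
        · exact h.1
    · rw [Finset.disjoint_left]
      intro ω h1 h2
      simp only [Finset.mem_filter, Finset.mem_univ, true_and] at h1 h2
      obtain ⟨i, hi, h3⟩ := h2.2
      have := h1.2 i hi
      rw [this] at h3
      exact absurd h3 (by simp)
  unfold cnt
  rw [← Fintype.card_subtype, ← Fintype.card_subtype]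
  have p0 : (0 : ℝ) < 2 ^ P.card := by positivity
  have e3 : (Fintype.card {ω : I → Bool // E ω} : ℝ) =
      Fintype.card {ω : I → Bool // E ω ∧ ∀ i ∈ P, ω i = false} * 2 ^ P.card := by
    exact_mod_cast e1
  have e4 : (Fintype.card {ω : I → Bool // E ω} : ℝ) =
      Fintype.card {ω : I → Bool // E ω ∧ ∀ i ∈ P, ω i = false} +
      Fintype.card {ω : I → Bool // E ω ∧ ∃ i ∈ P, ω i = true} := by
    exact_mod_cast e2
  have e5 : (Fintype.card {ω : I → Bool // E ω ∧ ∀ i ∈ P, ω i = false} : ℝ) =
      (1 / 2 : ℝ) ^ P.card * Fintype.card {ω : I → Bool // E ω} := by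
    rw [e3, one_div, inv_pow]
    field_simp
  linarith

open Classical in
theorem pf_IBL : T_IBL := by
  intro n r L X hr hd
  set p : ℝ := 1 - (1 / 2 : ℝ) ^ (r.choose 2) with hp
  set P : Fin L → Finset (Sym2 (Fin n)) := fun j => (X j).offDiag.image Sym2.mk.uncurry with hP
  have hPc : ∀ j, (P j).card = r.choose 2 := fun j => by
    rw [hP]
    simp only
    rw [Sym2.card_image_offDiag, hr j]
  have hPm : ∀ j u v, s(u, v) ∈ P j ↔ u ∈ X j ∧ v ∈ X j ∧ u ≠ v := by
    intro j u v
    rw [hP]
    simp only [Finset.mem_image, Finset.mem_offDiag, Prod.exists, Function.uncurry_apply_pair]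
    constructor
    · rintro ⟨a, b, ⟨h1, h2, h3⟩, h4⟩
      rcases Sym2.eq_iff.1 h4 with ⟨rfl, rfl⟩ | ⟨rfl, rfl⟩
      · exact ⟨h1, h2, h3⟩
      · exact ⟨h2, h1, h3.symm⟩
    · rintro ⟨h1, h2, h3⟩
      exact ⟨u, v, ⟨h1, h2, h3⟩, rfl⟩
  have hInd : ∀ (ω : Om n) j, ¬ Ind (gr ω) (X j) ↔ ∃ e ∈ P j, ω e = true := by
    intro ω j
    unfold Ind gr
    simp only [not_and, not_forall, not_not]
    constructor
    · rintro ⟨u, hu, v, hv, h1, h2⟩
      exact ⟨s(u, v), (hPm j u v).2 ⟨hu, hv, h1⟩, h2⟩
    · rintro ⟨e, he, h2⟩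
      induction e using Sym2.ind with
      | _ u v =>
        obtain ⟨hu, hv, h1⟩ := (hPm j u v).1 he
        exact ⟨u, hu, v, hv, h1, h2⟩
  have hdis : ∀ i j, i ≠ j → ∀ e ∈ P i, e ∉ P j := by
    intro i j hij e he he'
    induction e using Sym2.ind with
    | _ u v =>
      obtain ⟨hu, -, -⟩ := (hPm i u v).1 he
      obtain ⟨hu', -, -⟩ := (hPm j u v).1 he'
      exact (Finset.disjoint_left.1 (hd i j hij)) hu hu'
  have main : ∀ s : Finset (Fin L), cnt (fun ω : Om n => ∀ j ∈ s, ∃ e ∈ P j, ω e = true) =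
      p ^ s.card * 2 ^ Fintype.card (Sym2 (Fin n)) := by
    intro s
    induction s using Finset.induction_on with
    | empty =>
      unfold cnt
      simp
    | insert j s hj ih =>
      have e1 : (fun ω : Om n => ∀ j' ∈ insert j s, ∃ e ∈ P j', ω e = true) =
          fun ω : Om n => (∀ j' ∈ s, ∃ e ∈ P j', ω e = true) ∧ ∃ e ∈ P j, ω e = true := by
        funext ω
        rw [Finset.forall_mem_insert]
        exact propext and_comm
      rw [e1, split (P j) (fun ω : Om n => ∀ j' ∈ s, ∃ e ∈ P j', ω e = true), ih, hPc j,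
        Finset.card_insert_of_notMem hj, pow_succ, ← hp]
      · ring
      · intro ω ω' h
        have h1 : ∀ j' ∈ s, ∀ e ∈ P j', ω e = ω' e := fun j' hj' e he =>
          h e (hdis j' j (fun h2 => hj (h2 ▸ hj')) e he)
        constructor
        · intro h2 j' hj'
          obtain ⟨e, he, h3⟩ := h2 j' hj'
          exact ⟨e, he, by rw [← h1 j' hj' e he]; exact h3⟩
        · intro h2 j' hj'
          obtain ⟨e, he, h3⟩ := h2 j' hj'
          exact ⟨e, he, by rw [h1 j' hj' e he]; exact h3⟩
  have h1 := main univ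
  have e2 : (fun ω : Om n => ∀ j, ¬ Ind (gr ω) (X j)) =
      fun ω : Om n => ∀ j ∈ (univ : Finset (Fin L)), ∃ e ∈ P j, ω e = true := by
    funext ω
    simp only [hInd, Finset.mem_univ, forall_true_left]
  rw [e2, h1, Finset.card_univ, Fintype.card_fin]

end Pool.Agent.H60.EAG
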