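import Pool.Agent.H39.EAG.Targets

/-!
# MRG: the merging lemma (MP_a10695_co)
-/

set_option autoImplicit false

open Finset Filter Topology Pool.Agent.H39.EAG

namespace Pool.Agent.H60.EAG

theorem pf_MRG (h : T_CHA) : T_MRG := by
  intro V _ _ G x y S R hx hy hR c k i hi hck hcp hxy
  classical
  obtain ⟨hc, -⟩ := h V G
  obtain ⟨c0, p1, p2⟩ := (hc (S.erase y) _).2 (le_refl (chi G (S.erase y)))
  set a := chi G (S.erase y) with ha
  have hxy' : x ≠ y := fun e => hx (e ▸ hy)
  have hRm : ∀ v, v ∈ R ↔ v ≠ x ∧ v ∉ S := by
    intro v
    rw [hR, Finset.mem_sdiff, Finset.mem_insert]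
    simp [not_or]
  refine (hc univ _).1 ⟨fun v => if v = x then a else if v = y then a + 1 else
    if v ∈ S then c0 v else if c v = i then (if G.Adj x v then a + 1 else a) else
      a + 2 + (if i < c v then c v - 1 else c v), ?_, ?_⟩
  · intro v _
    by_cases h1 : v = x
    · simp only [h1, if_true]
      omega
    by_cases h2 : v = y
    · simp only [h2, if_neg hxy'.symm, if_true]
      omega
    by_cases h3 : v ∈ S
    · simp only [if_neg h1, if_neg h2, if_pos h3]
      have := p1 v (mem_erase.2 ⟨h2, h3⟩)
      omega
    have h4 := hck v ((hRm v).2 ⟨h1, h3⟩)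
    simp only [if_neg h1, if_neg h2, if_neg h3]
    split_ifs <;> omega
  · -- a symmetric argument, by cases on the kinds of the two vertices
    have key : ∀ u v : V, G.Adj u v →
        (if u = x then a else if u = y then a + 1 else
          if u ∈ S then c0 u else if c u = i then (if G.Adj x u then a + 1 else a) else
          a + 2 + (if i < c u then c u - 1 else c u)) ≠
        (if v = x then a else if v = y then a + 1 else
          if v ∈ S then c0 v else if c v = i then (if G.Adj x v then a + 1 else a) else
          a + 2 + (if i < c v then c v - 1 else c v)) := by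
      intro u v huv
      by_cases hu1 : u = x
      · subst hu1
        rw [if_pos rfl]
        by_cases hv1 : v = u
        · exact absurd hv1.symm huv.ne
        rw [if_neg hv1]
        by_cases hv2 : v = y
        · rw [if_pos hv2]
          omega
        rw [if_neg hv2]
        by_cases hv3 : v ∈ S
        · rw [if_pos hv3]
          have := p1 v (mem_erase.2 ⟨hv2, hv3⟩)
          omega
        rw [if_neg hv3]
        by_cases hv4 : c v = i
        · rw [if_pos hv4, if_pos huv]
          omega
        · rw [if_neg hv4]
          split_ifs <;> omega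
      rw [if_neg hu1]
      by_cases hu2 : u = y
      · subst hu2
        rw [if_pos rfl]
        by_cases hv1 : v = x
        · rw [if_pos hv1]
          omega
        rw [if_neg hv1]
        by_cases hv2 : v = u
        · exact absurd hv2.symm huv.ne
        rw [if_neg hv2]
        by_cases hv3 : v ∈ S
        · rw [if_pos hv3]
          have := p1 v (mem_erase.2 ⟨hv2, hv3⟩)
          omega
        rw [if_neg hv3]
        by_cases hv4 : c v = i
        · have h5 : ¬ G.Adj x v := fun h6 => hxy v ((hRm v).2 ⟨hv1, hv3⟩) hv4 ⟨h6, huv⟩
          rw [if_pos hv4, if_neg h5]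
          omega
        · rw [if_neg hv4]
          split_ifs <;> omega
      rw [if_neg hu2]
      by_cases hu3 : u ∈ S
      · rw [if_pos hu3]
        have hu4 := p1 u (mem_erase.2 ⟨hu2, hu3⟩)
        by_cases hv1 : v = x
        · rw [if_pos hv1]
          omega
        rw [if_neg hv1]
        by_cases hv2 : v = y
        · rw [if_pos hv2]
          omega
        rw [if_neg hv2]
        by_cases hv3 : v ∈ S
        · rw [if_pos hv3]
          exact p2 u (mem_erase.2 ⟨hu2, hu3⟩) v (mem_erase.2 ⟨hv2, hv3⟩) huv
        rw [if_neg hv3]
        split_ifs <;> omega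
      rw [if_neg hu3]
      have huR : u ∈ R := (hRm u).2 ⟨hu1, hu3⟩
      by_cases hu4 : c u = i
      · rw [if_pos hu4]
        by_cases hv1 : v = x
        · subst hv1
          rw [if_pos rfl, if_pos huv.symm]
          omega
        rw [if_neg hv1]
        by_cases hv2 : v = y
        · subst hv2
          have h5 : ¬ G.Adj x u := fun h6 => hxy u huR hu4 ⟨h6, huv.symm⟩
          rw [if_pos rfl, if_neg h5]
          omega
        rw [if_neg hv2]
        by_cases hv3 : v ∈ S
        · rw [if_pos hv3]
          have := p1 v (mem_erase.2 ⟨hv2, hv3⟩)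
          split_ifs <;> omega
        rw [if_neg hv3]
        have hvR : v ∈ R := (hRm v).2 ⟨hv1, hv3⟩
        by_cases hv4 : c v = i
        · exact absurd (hu4.trans hv4.symm) (hcp u huR v hvR huv)
        · rw [if_neg hv4]
          split_ifs <;> omega
      · rw [if_neg hu4]
        by_cases hv1 : v = x
        · rw [if_pos hv1]
          split_ifs <;> omega
        rw [if_neg hv1]
        by_cases hv2 : v = y
        · rw [if_pos hv2]
          split_ifs <;> omega
        rw [if_neg hv2]
        by_cases hv3 : v ∈ S
        · rw [if_pos hv3]
          have := p1 v (mem_erase.2 ⟨hv2, hv3⟩)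
          split_ifs <;> omega
        rw [if_neg hv3]
        have hvR : v ∈ R := (hRm v).2 ⟨hv1, hv3⟩
        by_cases hv4 : c v = i
        · rw [if_pos hv4]
          split_ifs <;> omega
        · rw [if_neg hv4]
          have := hcp u huR v hvR huv
          split_ifs <;> omega
    intro u _ v _ huv
    exact key u v huv

end Pool.Agent.H60.EAG
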