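import Pool.Agent.H39.EAG.Targets

/-!
# OPT: the chosen optimal colouring (MP_a10695_co)
-/

set_option autoImplicit false

open Finset Filter Topology Pool.Agent.H39.EAG

namespace Pool.Agent.H60.EAG

theorem col_rs {V : Type} (G : SimpleGraph V) (S : Finset V) (k : ℕ) :
    Col (rs G S) S k ↔ Col G S k := by
  constructor
  · rintro ⟨c, h1, h2⟩
    exact ⟨c, h1, fun u hu v hv huv => h2 u hu v hv ⟨huv, hu, hv⟩⟩
  · rintro ⟨c, h1, h2⟩
    exact ⟨c, h1, fun u hu v hv huv => h2 u hu v hv huv.1⟩

theorem chi_rs {V : Type} (G : SimpleGraph V) (S : Finset V) : chi (rs G S) S = chi G S := by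
  unfold chi
  congr 1
  ext k
  exact col_rs G S k

theorem opt_spec {V : Type} (G : SimpleGraph V) (S : Finset V) (h : Col G S (chi G S)) :
    (∀ v ∈ S, opt G S v < chi G S) ∧ (∀ u ∈ S, ∀ v ∈ S, G.Adj u v → opt G S u ≠ opt G S v) := by
  classical
  have h0 : Col (rs G S) S (chi (rs G S) S) := by
    rw [chi_rs]
    exact (col_rs G S _).2 h
  have e : opt G S = Classical.choose h0 := by
    unfold opt
    rw [dif_pos h0]
  obtain ⟨h1, h2⟩ := Classical.choose_spec h0
  rw [e]
  refine ⟨fun v hv => ?_, fun u hu v hv huv => h2 u hu v hv ⟨huv, hu, hv⟩⟩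
  exact lt_of_lt_of_eq (h1 v hv) (chi_rs G S)

theorem pf_OPT (h : T_CHA) : T_OPT := by
  intro V _ _ G S
  obtain ⟨hc, -⟩ := h V G
  obtain ⟨o1, o2⟩ := opt_spec G S ((hc S _).2 le_rfl)
  refine ⟨chi_rs G S, o1, o2, ?_, ?_⟩
  · intro i hi
    by_contra hne
    push Not at hne
    have h1 : Col G S (chi G S - 1) := by
      refine ⟨fun v => if i < opt G S v then opt G S v - 1 else opt G S v, ?_, ?_⟩
      · intro v hv
        have a1 := o1 v hv
        have a2 := hne v hv
        simp only
        split_ifs
        · omega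
        · omega
      · intro u hu v hv huv hcc
        have a1 := o2 u hu v hv huv
        have a2 := hne v hv
        have a3 := hne u hu
        simp only at hcc
        split_ifs at hcc
        · omega
        · omega
        · omega
        · omega
    have h2 := (hc S _).1 h1
    omega
  · intro G' hG
    have e : rs G S = rs G' S := by
      ext u v
      constructor
      · rintro ⟨a, hu, hv⟩
        exact ⟨(hG u hu v hv).1 a, hu, hv⟩
      · rintro ⟨a, hu, hv⟩
        exact ⟨(hG u hu v hv).2 a, hu, hv⟩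
    refine ⟨?_, ?_⟩
    · rw [← chi_rs G S, ← chi_rs G' S, e]
    · unfold opt
      rw [e]

end Pool.Agent.H60.EAG
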